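import Mathlib
import Pool.Agent.Lib.MP_235015_lc.Defs
import Pool.Agent.Lib.MP_235015_lc.All.Main

open Pool.Agent.Lib.MP_235015_lc

/-- Over every finite alphabet `A` with at least two letters there is a pattern (a nonempty word
over variables and terminals) whose NE-pattern language is context-free but not regular. -/
theorem Pool.Agent.Results.MP_235015_lc.AllAlphabets.result (A : Type) [Fintype A]
    (hA : 2 ≤ Fintype.card A) :
    ∃ α : PatternWord A, α ≠ 1 ∧ (nePatternLanguage α).IsContextFree ∧
      ¬ (nePatternLanguage α).IsRegular :=
  All.main A hA
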